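import Pool.Agent.E8helper61.SI.Stm2

/-!
# Piece BSP of project SI2 (helper61), MP_64e56f_co
-/

set_option autoImplicit false

namespace Pool.Agent.E8helper14.SI

open Finset Pool.Agent.E8helper61.SI

theorem choose_le (r : ℕ) : ∀ k : ℕ, r.choose (k + 1) ≤ r * (r + 1) ^ k := by
  intro k
  induction k with
  | zero => simp
  | succ k ih =>
    have h1 : r.choose (k + 2) * (k + 2) = r.choose (k + 1) * (r - (k + 1)) :=
      Nat.choose_succ_right_eq r (k + 1)
    calc r.choose (k + 1 + 1) ≤ r.choose (k + 2) * (k + 2) := Nat.le_mul_of_pos_right _ (by omega)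
      _ = r.choose (k + 1) * (r - (k + 1)) := h1
      _ ≤ (r * (r + 1) ^ k) * (r + 1) := Nat.mul_le_mul ih (by omega)
      _ = r * (r + 1) ^ (k + 1) := by ring

theorem bs1 (r k : ℕ) : Bs r k ≤ (r + 1) ^ k := by
  induction k with
  | zero => simp [Bs]
  | succ k ih =>
    have h : Bs r (k + 1) = Bs r k + r.choose (k + 1) := by
      rw [Bs, Finset.sum_range_succ, Bs]
    rw [h, pow_succ]
    have := choose_le r k
    nlinarith

theorem bs_mul (r k : ℕ) (hk : k ≤ r) : Bs r k * 15 ^ (r - k) ≤ 16 ^ r := by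
  have h : (16 : ℕ) ^ r = ∑ i ∈ range (r + 1), r.choose i * 15 ^ (r - i) := by
    have h1 := add_pow (1 : ℕ) 15 r
    norm_num at h1
    rw [h1]
    apply Finset.sum_congr rfl
    intro i _
    ring
  rw [h, Bs, Finset.sum_mul]
  calc ∑ i ∈ range (k + 1), r.choose i * 15 ^ (r - k)
      ≤ ∑ i ∈ range (k + 1), r.choose i * 15 ^ (r - i) := by
        apply Finset.sum_le_sum
        intro i hi
        rw [Finset.mem_range] at hi
        exact Nat.mul_le_mul_left _ (Nat.pow_le_pow_right (by norm_num) (by omega))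
    _ ≤ ∑ i ∈ range (r + 1), r.choose i * 15 ^ (r - i) := by
        apply Finset.sum_le_sum_of_subset
        intro i hi
        rw [Finset.mem_range] at hi ⊢
        omega

theorem bs2 (r k : ℕ) (hk : 16 * k ≤ r) : (Bs r k) ^ 4 ≤ 3 ^ r := by
  have h1 := bs_mul r k (by omega)
  have h2 : (Bs r k) ^ 16 * 15 ^ (15 * r) ≤ 81 ^ r * 15 ^ (15 * r) := by
    calc (Bs r k) ^ 16 * 15 ^ (15 * r) ≤ (Bs r k) ^ 16 * 15 ^ ((r - k) * 16) :=
          Nat.mul_le_mul_left _ (Nat.pow_le_pow_right (by norm_num) (by omega))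
      _ = (Bs r k * 15 ^ (r - k)) ^ 16 := by rw [mul_pow, pow_mul]
      _ ≤ (16 ^ r) ^ 16 := Nat.pow_le_pow_left h1 16
      _ = (16 ^ 16) ^ r := by rw [← pow_mul, ← pow_mul, mul_comm]
      _ ≤ (81 * 15 ^ 15) ^ r := Nat.pow_le_pow_left (by norm_num) r
      _ = 81 ^ r * 15 ^ (15 * r) := by rw [mul_pow, ← pow_mul]
  have h3 : (Bs r k) ^ 16 ≤ 81 ^ r := Nat.le_of_mul_le_mul_right h2 (by positivity)
  have h4 : ((Bs r k) ^ 4) ^ 4 ≤ (3 ^ r) ^ 4 := by
    calc ((Bs r k) ^ 4) ^ 4 = (Bs r k) ^ 16 := by rw [← pow_mul]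
      _ ≤ 81 ^ r := h3
      _ = (3 ^ r) ^ 4 := by rw [← pow_mul, mul_comm, pow_mul]; norm_num
  exact (Nat.pow_le_pow_iff_left (by norm_num)).1 h4

theorem bsp : BspStatement := ⟨bs1, bs2⟩

end Pool.Agent.E8helper14.SI
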